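import Pool.Agent.Helper4.It.Goals
import Pool.Agent.Helper20.Mono.Crd

/-!
# Packet U1 (helper4, project IT): star subdivision of a two-dimensional cone
-/

namespace Mono

namespace It

open Finset Filter Topology Mono.Comp

namespace U1

variable {n : ℕ}

/-- Two cones with nonnegative coordinates give the same coordinates. -/
theorem crd_congr (T : Fan n) {F F' : Finset (Fin n → ℤ)} (hF : F ∈ T.mx) (hF' : F' ∈ T.mx)
    {x : Fin n → ℝ} (h : ∀ w, 0 ≤ crd F x w) (h' : ∀ w, 0 ≤ crd F' x w) :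
    crd F x = crd F' x := by
  classical
  have h1 : ∀ w, w ∉ F' → crd F x w = 0 := T.inter F hF F' hF' x h h'
  symm
  refine crd_unique (T.mx_indep F' hF') ⟨h1, ?_⟩
  have h2 := sum_crd (T.mx_indep F hF) (T.mx_card F hF) x
  have h3 : ∑ w ∈ F, crd F x w • toR w = ∑ w ∈ F ∪ F', crd F x w • toR w :=
    sum_subset subset_union_left fun w _ hw => by rw [crd_of_notMem F x hw, zero_smul]
  have h4 : ∑ w ∈ F', crd F x w • toR w = ∑ w ∈ F ∪ F', crd F x w • toR w :=
    sum_subset subset_union_right fun w _ hw => by rw [h1 w hw, zero_smul]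
  rw [h4, ← h3, h2]

open Classical in
/-- The coordinates in `F` of a combination of the generators of `insert (a + a') (F.erase a)`. -/
noncomputable def dd (a a' : Fin n → ℤ) (c : (Fin n → ℤ) → ℝ) (w : Fin n → ℤ) : ℝ :=
  (if w = a then c (a + a') else c w) + if w = a' then c (a + a') else 0

theorem sum_dd {F : Finset (Fin n → ℤ)} {a a' : Fin n → ℤ} (ha : a ∈ F) (ha' : a' ∈ F)
    (hv : a + a' ∉ F) (c : (Fin n → ℤ) → ℝ) :
    ∑ w ∈ insert (a + a') (F.erase a), c w • toR w = ∑ w ∈ F, dd a a' c w • toR w := by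
  classical
  have hv' : a + a' ∉ F.erase a := fun h => hv (mem_of_mem_erase h)
  rw [sum_insert hv']
  unfold dd
  simp only [add_smul]
  rw [sum_add_distrib, ← add_sum_erase F _ ha]
  have e1 : ∑ w ∈ F, (if w = a' then c (a + a') else 0) • toR w = c (a + a') • toR a' := by
    rw [sum_eq_single_of_mem a' ha' (fun w _ hw => by rw [if_neg hw, zero_smul]), if_pos rfl]
  have e2 : ∑ w ∈ F.erase a, (if w = a then c (a + a') else c w) • toR w =
      ∑ w ∈ F.erase a, c w • toR w :=
    sum_congr rfl fun w hw => by rw [if_neg (ne_of_mem_erase hw)]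
  rw [e1, e2, if_pos rfl, toR_add, smul_add]
  abel

theorem card_new {F : Finset (Fin n → ℤ)} {a a' : Fin n → ℤ} (ha : a ∈ F)
    (hv : a + a' ∉ F) : (insert (a + a') (F.erase a)).card = F.card := by
  classical
  have hv' : a + a' ∉ F.erase a := fun h => hv (mem_of_mem_erase h)
  rw [card_insert_of_notMem hv', card_erase_of_mem ha]
  have := card_pos.2 ⟨a, ha⟩
  omega

theorem indep_new {F : Finset (Fin n → ℤ)} (hF : Indep F) {a a' : Fin n → ℤ} (ha : a ∈ F)
    (ha' : a' ∈ F) (hne : a ≠ a') (hv : a + a' ∉ F) : Indep (insert (a + a') (F.erase a)) := by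
  classical
  unfold Indep
  rw [Fintype.linearIndependent_iff]
  intro g hg
  set c : (Fin n → ℤ) → ℝ := fun w => if hw : w ∈ insert (a + a') (F.erase a) then g ⟨w, hw⟩
    else 0 with hc
  have h1 : ∑ w ∈ insert (a + a') (F.erase a), c w • toR w = 0 := by
    rw [← hg, ← Finset.sum_coe_sort (insert (a + a') (F.erase a)) (fun w => c w • toR w)]
    refine sum_congr rfl fun w _ => ?_
    simp only [hc, dif_pos w.2]
  rw [sum_dd ha ha' hv] at h1
  have h2 := hF.sum_eq_zero h1
  have h3 : c (a + a') = 0 := by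
    have := h2 a ha
    simpa [dd, hne] using this
  intro w
  have h4 : c w = g w := by simp only [hc, dif_pos w.2]
  rw [← h4]
  rcases mem_insert.1 w.2 with h5 | h5
  · rw [h5, h3]
  · have h6 := h2 w (mem_of_mem_erase h5)
    rw [dd, if_neg (ne_of_mem_erase h5), h3] at h6
    split_ifs at h6 <;> simpa using h6

/-- The coordinates in `F` in terms of those in the new cone. -/
theorem crd_new {F : Finset (Fin n → ℤ)} (hF : Indep F) (hc : F.card = n) {a a' : Fin n → ℤ}
    (ha : a ∈ F) (ha' : a' ∈ F) (hne : a ≠ a') (hv : a + a' ∉ F) (x : Fin n → ℝ) :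
    crd F x a = crd (insert (a + a') (F.erase a)) x (a + a') ∧
    crd F x a' = crd (insert (a + a') (F.erase a)) x a' +
      crd (insert (a + a') (F.erase a)) x (a + a') ∧
    ∀ w, w ≠ a → w ≠ a' → w ≠ a + a' →
      crd F x w = crd (insert (a + a') (F.erase a)) x w := by
  classical
  set G := insert (a + a') (F.erase a) with hG
  have hGi : Indep G := indep_new hF ha ha' hne hv
  have hGc : G.card = n := (card_new ha hv).trans hc
  have h1 : x = ∑ w ∈ F, dd a a' (crd G x) w • toR w := by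
    rw [← sum_dd ha ha' hv, sum_crd hGi hGc]
  have h2 : ∀ w ∈ F, crd F x w = dd a a' (crd G x) w := fun w hw => crd_eq hF h1 hw
  refine ⟨?_, ?_, fun w h3 h4 h5 => ?_⟩
  · rw [h2 a ha]; simp [dd, hne]
  · rw [h2 a' ha']; simp [dd, hne.symm]
  · by_cases hw : w ∈ F
    · rw [h2 w hw]; simp [dd, h3, h4]
    · rw [crd_of_notMem F x hw, crd_of_notMem G x]
      rw [hG, mem_insert, mem_erase]
      rintro (h6 | ⟨-, h6⟩)
      · exact h5 h6
      · exact hw h6

open Classical in
/-- The new coordinates. -/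
noncomputable def Y (u u' : Fin n → ℤ) (X : (Fin n → ℤ) → ℝ) (w : Fin n → ℤ) : ℝ :=
  X w - (if w = u ∨ w = u' then min (X u) (X u') else 0) +
    if w = u + u' then min (X u) (X u') else 0

theorem Y_comm (u u' : Fin n → ℤ) (X : (Fin n → ℤ) → ℝ) : Y u u' X = Y u' u X := by
  funext w
  unfold Y
  rw [min_comm, add_comm u u']
  by_cases h1 : w = u <;> by_cases h2 : w = u' <;> simp only [h1, h2, or_true, true_or, or_self]

theorem ne_zero_of_mem {F : Finset (Fin n → ℤ)} (hF : Indep F) {a : Fin n → ℤ} (ha : a ∈ F) :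
    a ≠ 0 := by
  intro h
  have h1 := hF.ne_zero (⟨a, ha⟩ : F)
  subst h
  exact h1 toR_zero

/-- The coordinates in a new cone. -/
theorem crd_Y {F : Finset (Fin n → ℤ)} (hF : Indep F) (hc : F.card = n) {a a' : Fin n → ℤ}
    (ha : a ∈ F) (ha' : a' ∈ F) (hne : a ≠ a') (hv : a + a' ∉ F) (x : Fin n → ℝ)
    (h0 : ∀ w, 0 ≤ crd (insert (a + a') (F.erase a)) x w) :
    (∀ w, 0 ≤ crd F x w) ∧ crd (insert (a + a') (F.erase a)) x = Y a a' (crd F x) := by
  classical
  obtain ⟨h1, h2, h3⟩ := crd_new hF hc ha ha' hne hv x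
  have hva : a + a' ≠ a := fun h => hv (by rw [h]; exact ha)
  have hva' : a + a' ≠ a' := fun h => hv (by rw [h]; exact ha')
  have hm : min (crd F x a) (crd F x a') = crd (insert (a + a') (F.erase a)) x (a + a') := by
    rw [h1, h2]
    exact min_eq_left (by have := h0 a'; linarith)
  refine ⟨fun w => ?_, ?_⟩
  · by_cases hw1 : w = a
    · rw [hw1, h1]; exact h0 _
    · by_cases hw2 : w = a'
      · rw [hw2, h2]; exact add_nonneg (h0 _) (h0 _)
      · by_cases hw3 : w = a + a'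
        · rw [hw3, crd_of_notMem F x hv]
        · rw [h3 w hw1 hw2 hw3]; exact h0 _
  · funext w
    unfold Y
    rw [hm]
    by_cases hw1 : w = a
    · rw [hw1, if_pos (Or.inl rfl), if_neg hva.symm, h1, sub_self, zero_add]
      refine crd_of_notMem _ x ?_
      rw [mem_insert, mem_erase]
      rintro (h | ⟨h, -⟩)
      · exact hva h.symm
      · exact h rfl
    · by_cases hw2 : w = a'
      · rw [hw2, if_pos (Or.inr rfl), if_neg hva'.symm, h2]; ring
      · rw [if_neg (not_or.2 ⟨hw1, hw2⟩)]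
        by_cases hw3 : w = a + a'
        · rw [if_pos hw3, hw3, crd_of_notMem F x hv]; ring
        · rw [if_neg hw3, h3 w hw1 hw2 hw3]; ring

/-- If the coordinate at `a` is at most that at `a'`, the point is in the new cone. -/
theorem cover_new {F : Finset (Fin n → ℤ)} (hF : Indep F) (hc : F.card = n) {a a' : Fin n → ℤ}
    (ha : a ∈ F) (ha' : a' ∈ F) (hne : a ≠ a') (hv : a + a' ∉ F) (x : Fin n → ℝ)
    (h0 : ∀ w, 0 ≤ crd F x w) (hle : crd F x a ≤ crd F x a') :
    ∀ w, 0 ≤ crd (insert (a + a') (F.erase a)) x w := by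
  classical
  obtain ⟨h1, h2, h3⟩ := crd_new hF hc ha ha' hne hv x
  have hva : a + a' ≠ a := fun h => hv (by rw [h]; exact ha)
  intro w
  by_cases hw1 : w = a
  · rw [hw1]
    refine (crd_of_notMem _ x ?_).ge
    rw [mem_insert, mem_erase]
    rintro (h | ⟨h, -⟩)
    · exact hva h.symm
    · exact h rfl
  · by_cases hw2 : w = a'
    · rw [hw2]; rw [h1, h2] at hle; linarith
    · by_cases hw3 : w = a + a'
      · rw [hw3, ← h1]; exact h0 _
      · rw [← h3 w hw1 hw2 hw3]; exact h0 _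

/-- The sum of two generators is not a generator. -/
theorem sum_notMem (T : Fan n) {F0 F : Finset (Fin n → ℤ)} (hF0 : F0 ∈ T.mx) (hF : F ∈ T.mx)
    {u u' : Fin n → ℤ} (hu : u ∈ F0) (hu' : u' ∈ F0) : u + u' ∉ F := by
  classical
  intro hv
  have hi0 := T.mx_indep F0 hF0
  have hc0 := T.mx_card F0 hF0
  have hi := T.mx_indep F hF
  have e0 : ∀ w, crd F0 (toR (u + u')) w = (if w = u then 1 else 0) + if w = u' then 1 else 0 := by
    intro w
    rw [toR_add, crd_add hi0 hc0, crd_toR hi0 hu, crd_toR hi0 hu']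
  have e1 : ∀ w, crd F (toR (u + u')) w = if w = u + u' then 1 else 0 := crd_toR hi hv
  have h0 : ∀ w, 0 ≤ crd F0 (toR (u + u')) w := fun w => by
    rw [e0]; split_ifs <;> norm_num
  have h1 : ∀ w, 0 ≤ crd F (toR (u + u')) w := fun w => by
    rw [e1]; split_ifs <;> norm_num
  have h2 := congrFun (crd_congr T hF0 hF h0 h1) (u + u')
  rw [e0, e1, if_pos rfl] at h2
  have hu0 : u + u' ≠ u' := fun h => ne_zero_of_mem hi0 hu (add_eq_right.1 h)
  have hu'0 : u + u' ≠ u := fun h => ne_zero_of_mem hi0 hu' (add_eq_left.1 h)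
  rw [if_neg hu0, if_neg hu'0] at h2
  norm_num at h2

end U1

open U1

/-- `U1`. -/
theorem star2 : Star2 := by
  classical
  rintro n T u u' hne ⟨F0, hF0, hu0, hu0'⟩
  have hv : ∀ F ∈ T.mx, u + u' ∉ F := fun F hF => sum_notMem T hF0 hF hu0 hu0'
  have hv' : ∀ F ∈ T.mx, u' + u ∉ F := fun F hF => by rw [add_comm]; exact hv F hF
  set M : Finset (Finset (Fin n → ℤ)) := T.mx.filter (fun G => ¬ (u ∈ G ∧ u' ∈ G)) ∪
    (T.mx.filter (fun F => u ∈ F ∧ u' ∈ F)).biUnion
      (fun F => {insert (u + u') (F.erase u), insert (u + u') (F.erase u')}) with hM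
  have hmem : ∀ G, G ∈ M ↔ (G ∈ T.mx ∧ ¬ (u ∈ G ∧ u' ∈ G)) ∨ ∃ F ∈ T.mx, (u ∈ F ∧ u' ∈ F) ∧
      (G = insert (u + u') (F.erase u) ∨ G = insert (u + u') (F.erase u')) := by
    intro G
    rw [hM, mem_union, mem_filter, mem_biUnion]
    constructor
    · rintro (h | ⟨F, hF, hG⟩)
      · exact Or.inl h
      · rw [mem_filter] at hF
        rw [mem_insert, mem_singleton] at hG
        exact Or.inr ⟨F, hF.1, hF.2, hG⟩
    · rintro (h | ⟨F, hF, hF', hG⟩)
      · exact Or.inl h
      · refine Or.inr ⟨F, mem_filter.2 ⟨hF, hF'⟩, ?_⟩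
        rw [mem_insert, mem_singleton]
        exact hG
  -- properties of the new cones
  have hcard : ∀ G ∈ M, G.card = n := by
    intro G hG
    rcases (hmem G).1 hG with ⟨h, -⟩ | ⟨F, hF, ⟨h1, h2⟩, h | h⟩
    · exact T.mx_card G h
    · rw [h, card_new h1 (hv F hF)]; exact T.mx_card F hF
    · rw [h, add_comm u u', card_new h2 (hv' F hF)]; exact T.mx_card F hF
  have hind : ∀ G ∈ M, Indep G := by
    intro G hG
    rcases (hmem G).1 hG with ⟨h, -⟩ | ⟨F, hF, ⟨h1, h2⟩, h | h⟩
    · exact T.mx_indep G h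
    · rw [h]; exact indep_new (T.mx_indep F hF) h1 h2 hne (hv F hF)
    · rw [h, add_comm u u']; exact indep_new (T.mx_indep F hF) h2 h1 hne.symm (hv' F hF)
  have hY : ∀ G ∈ M, ∀ x : Fin n → ℝ, (∀ w, 0 ≤ crd G x w) → ∃ F ∈ T.mx,
      (∀ w, 0 ≤ crd F x w) ∧ crd G x = Y u u' (crd F x) := by
    intro G hG x h0
    rcases (hmem G).1 hG with ⟨h, h'⟩ | ⟨F, hF, ⟨h1, h2⟩, h | h⟩
    · refine ⟨G, h, h0, ?_⟩
      have hm : min (crd G x u) (crd G x u') = 0 := by
        by_cases hu : u ∈ G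
        · have hu' : u' ∉ G := fun h3 => h' ⟨hu, h3⟩
          rw [crd_of_notMem G x hu']
          exact min_eq_right (h0 u)
        · rw [crd_of_notMem G x hu]
          exact min_eq_left (h0 u')
      funext w
      unfold Y
      rw [hm]
      simp
    · rw [h] at h0
      have h3 := crd_Y (T.mx_indep F hF) (T.mx_card F hF) h1 h2 hne (hv F hF) x h0
      exact ⟨F, hF, h3.1, by rw [h]; exact h3.2⟩
    · rw [h, add_comm u u'] at h0
      have h3 := crd_Y (T.mx_indep F hF) (T.mx_card F hF) h2 h1 hne.symm (hv' F hF) x h0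
      exact ⟨F, hF, h3.1, by rw [h, add_comm u u', Y_comm u u']; exact h3.2⟩
  refine ⟨⟨insert (u + u') T.vert, M, ?_, ?_, hcard, hind, ?_, ?_⟩, hmem⟩
  · intro w hw i
    rcases mem_insert.1 hw with h | h
    · rw [h, Pi.add_apply]
      exact add_nonneg (T.vert_nonneg u (T.mx_sub F0 hF0 hu0) i)
        (T.vert_nonneg u' (T.mx_sub F0 hF0 hu0') i)
    · exact T.vert_nonneg w h i
  · intro G hG
    rcases (hmem G).1 hG with ⟨h, -⟩ | ⟨F, hF, ⟨h1, h2⟩, h | h⟩
    · exact (T.mx_sub G h).trans (subset_insert _ _)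
    · rw [h]; exact insert_subset_insert _ ((erase_subset _ _).trans (T.mx_sub F hF))
    · rw [h]; exact insert_subset_insert _ ((erase_subset _ _).trans (T.mx_sub F hF))
  · intro x hx
    obtain ⟨F, hF, h0⟩ := T.cover x hx
    by_cases h : u ∈ F ∧ u' ∈ F
    · rcases le_total (crd F x u) (crd F x u') with hle | hle
      · exact ⟨_, (hmem _).2 (Or.inr ⟨F, hF, h, Or.inl rfl⟩),
          cover_new (T.mx_indep F hF) (T.mx_card F hF) h.1 h.2 hne (hv F hF) x h0 hle⟩
      · refine ⟨_, (hmem _).2 (Or.inr ⟨F, hF, h, Or.inr rfl⟩), ?_⟩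
        rw [add_comm u u']
        exact cover_new (T.mx_indep F hF) (T.mx_card F hF) h.2 h.1 hne.symm (hv' F hF) x h0 hle
    · exact ⟨F, (hmem F).2 (Or.inl ⟨hF, h⟩), h0⟩
  · intro G hG G' hG' x h0 h0' w hw
    obtain ⟨F, hF, h1, h2⟩ := hY G hG x h0
    obtain ⟨F', hF', h1', h2'⟩ := hY G' hG' x h0'
    rw [h2, crd_congr T hF hF' h1 h1', ← h2']
    exact crd_of_notMem G' x hw

end It

end Mono
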